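import Pool.Agent.Helper96.CT.Stmts3

/-!
# CT row NH: a tree with large branches is not in the hub graph
-/

set_option autoImplicit false

namespace Pool.Agent.Helper34.CT

open SimpleGraph Pool.Agent.Helper96.CT

theorem walk_const {U : Type} {G : SimpleGraph U} (k : U → ℕ) (h : ∀ u v, G.Adj u v → k u = k v)
    {u v : U} (p : G.Walk u v) : k u = k v := by
  induction p with
  | nil => rfl
  | cons e _ ih => exact (h _ _ e).trans ih

/-- NH -/
theorem st_NH : ST_NH := by
  intro W V _ _ T F a h c hB hH hcon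
  classical
  obtain ⟨f⟩ := hcon
  obtain ⟨x, hx⟩ : ∃ x : W, ∀ w, w ≠ x → f w ≠ h := by
    by_cases hex : ∃ x, f x = h
    · obtain ⟨x, hx⟩ := hex
      refine ⟨x, fun w hw hfw => hw ?_⟩
      exact f.injective (hfw.trans hx.symm)
    · obtain ⟨x⟩ := (inferInstance : Nonempty W)
      exact ⟨x, fun w _ hfw => hex ⟨w, hfw⟩⟩
  obtain ⟨B, hxB, hconn, hcard⟩ := hB x
  have hne : ∀ w ∈ B, f w ≠ h := by
    intro w hw
    apply hx w
    rintro rfl
    exact hxB hw
  obtain ⟨b⟩ := hconn.nonempty
  have hconst : ∀ w ∈ B, c (f w) = c (f (b : W)) := by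
    intro w hw
    obtain ⟨p⟩ := hconn.preconnected ⟨w, hw⟩ b
    refine walk_const (G := T.induce (B : Set W)) (fun u => c (f (u : W))) ?_ p
    intro u v huv
    have h1 : T.Adj (u : W) (v : W) := huv
    exact hH.2 (f (u : W)) (f (v : W)) (f.toHom.map_adj h1) (hne _ u.2) (hne _ v.2)
  have h2 := hH.1 (c (f (b : W))) (B.image f) (by
    intro y hy
    obtain ⟨w, hw, rfl⟩ := Finset.mem_image.mp hy
    exact ⟨hne w hw, hconst w hw⟩)
  have h3 : (B.image f).card = B.card := Finset.card_image_of_injective B f.injective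
  omega

end Pool.Agent.Helper34.CT
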